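import Pool.Agent.Helper68.SG2.GoalsT
import Pool.Agent.Helper90.SGT.NQA

/-!
# Project SG, stage 2, packet NQAT
-/

set_option autoImplicit false

open MvPolynomial

namespace Pool.Agent.Helper92.SG2

open WeierstrassCurve Height
open Pool.Agent.Helper29.BL Pool.Agent.Helper92.Ru Pool.Agent.Helper42.SG Pool.Agent.Helper65.SG
open Pool.Agent.Helper90.SGT Pool.Agent.Helper68.SG2

theorem t_NQAT : Pool.Agent.Helper68.SG2.NQAT := by
  classical
  intro K _ _ T W n M δ hn
  set D : ℕ := 16 * ((M + 1) ^ (2 * n) * (δ + 1) ^ 2) with hD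
  have hD1 : 1 ≤ D := by
    rw [hD]
    exact Nat.mul_pos (by norm_num) (Nat.mul_pos (by positivity) (by positivity))
  have hD1' : (1 : ℝ) ≤ (D : ℝ) := by exact_mod_cast hD1
  refine ⟨fun v => cst v D * (cst v 40 * (bet (W 0) v * bet (W 1) v) ^ 2) ^ (2 * M), ?_, ?_⟩
  · have hpos : ∀ v : AbsoluteValue K ℝ, 0 < bet (W 0) v * bet (W 1) v := fun v =>
      mul_pos (bet_pos _ v) (bet_pos _ v)
    constructor
    · intro v
      refine one_le_mul_of_one_le_of_one_le (one_le_cst v hD1') (one_le_pow₀ ?_)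
      refine one_le_mul_of_one_le_of_one_le (one_le_cst v (by norm_num)) (one_le_pow₀ ?_)
      exact one_le_mul_of_one_le_of_one_le (one_le_bet _ v) (one_le_bet _ v)
    · have e : (fun v : AbsoluteValue K ℝ =>
          Real.log (cst v D * (cst v 40 * (bet (W 0) v * bet (W 1) v) ^ 2) ^ (2 * M))) =
          fun v => Real.log (cst v D) + ((2 * M : ℕ) : ℝ) * (Real.log (cst v 40) +
            ((2 : ℕ) : ℝ) * (Real.log (bet (W 0) v) + Real.log (bet (W 1) v))) := by
        funext v
        have p1 : cst v (D : ℝ) ≠ 0 := (cst_pos v hD1').ne'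
        have p2 : cst v (40 : ℝ) ≠ 0 := (cst_pos v (by norm_num)).ne'
        have p3 : (bet (W 0) v * bet (W 1) v) ^ 2 ≠ 0 := (pow_pos (hpos v) 2).ne'
        rw [Real.log_mul p1 (pow_ne_zero _ (mul_ne_zero p2 p3)), Real.log_pow,
          Real.log_mul p2 p3, Real.log_pow, Real.log_mul (bet_pos _ v).ne' (bet_pos _ v).ne']
      rw [e]
      exact (FS_log_cst _).add (((FS_log_cst _).add (((FS_log_bet _).add
        (FS_log_bet _)).const_mul _)).const_mul _)
  · intro e c v s A _ _ N X Ψ hN hs hc hX hΨ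
    obtain ⟨Γ, hΓ⟩ : ∃ Γ, Γ = (bet (W 0) v * bet (W 1) v) ^ 2 := ⟨_, rfl⟩
    have b0 := one_le_bet (W 0) v
    have b1 := one_le_bet (W 1) v
    have hΓ1 : 1 ≤ Γ := by
      rw [hΓ]
      exact one_le_pow₀ (one_le_mul_of_one_le_of_one_le b0 b1)
    have hc0 : 1 ≤ cst v 40 * Γ := one_le_mul_of_one_le_of_one_le (one_le_cst v (by norm_num)) hΓ1
    have hG : ∀ h : ℕ, Gd (K := K) N (mapW A W (h % 2)) Γ := by
      intro h
      have hle : bet (W (h % 2)) v ≤ bet (W 0) v * bet (W 1) v := by
        rcases Nat.mod_two_eq_zero_or_one h with h0 | h0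
        · rw [h0]; nlinarith
        · rw [h0]; nlinarith
      rw [hΓ]
      exact gd_map hN (W (h % 2)) _ hle
    have hlaw : ∀ h < 2 * n, N (lawV (mapW A W) n e (fun _ => false) X Ψ h).1
          ((cst v 40 * Γ) ^ (4 ^ e (h / 2))) ∧
        N (lawV (mapW A W) n e (fun _ => false) X Ψ h).2 ((cst v 40 * Γ) ^ (4 ^ e (h / 2))) := by
      intro h hh
      have hm : h % 2 < 2 := Nat.mod_lt _ (by norm_num)
      have hη : N (Ψ h * Ψ (2 * n + h % 2)) 1 := by
        have := hN.mul _ _ _ _ (hΨ h (by omega)) (hΨ (2 * n + h % 2) (by omega))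
        rwa [mul_one] at this
      exact law_bd hN (hG h) hΓ1 (hX h (by omega)) (hX (2 * n + h % 2) (by omega)) hη (e (h / 2))
    have hterm : ∀ α : Idx n M δ e, N (algebraMap K A (c α) *
        (∏ h : Fin (2 * n), blk T (mapW A W) n M e (fun _ => false) X Ψ h.val
          (α.1 h).1.val (α.1 h).2.val) *
        ∏ i : Fin 2, X (2 * n + i.val) ^ (α.2 i).val)
        (s * (cst v 40 * Γ) ^ (2 * M * sq n e)) := by
      intro α
      have t1 : N (algebraMap K A (c α)) s := hN.mono _ _ _ (hN.const _) (hc α)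
      have t2 : N (∏ i : Fin 2, X (2 * n + i.val) ^ (α.2 i).val) 1 := by
        have h := n_prod hN Finset.univ (fun i : Fin 2 => X (2 * n + i.val) ^ (α.2 i).val)
          (fun _ => 1) (fun i _ => by
            have h1 := n_pow hN (hX (2 * n + i.val) (by have := i.isLt; omega)) (α.2 i).val
            rwa [one_pow] at h1)
        rwa [Finset.prod_const_one] at h
      have t3 := n_prod hN Finset.univ (fun h : Fin (2 * n) =>
          blk T (mapW A W) n M e (fun _ => false) X Ψ h.val (α.1 h).1.val (α.1 h).2.val)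
        (fun h => (cst v 40 * Γ) ^ (4 ^ e (h.val / 2) * M)) (fun h _ => by
          have hlt := (α.1 h).2.isLt
          by_cases hT : T (h.val % 2) = true
          · unfold blk
            rw [if_pos hT, if_neg (by simp)]
            have h1 := n_pow hN (hX h.val (by have := h.isLt; omega))
              (4 ^ e (h.val / 2) * (α.1 h).2.val + (α.1 h).1.val)
            have h2 := n_pow hN (hX (2 * n + h.val % 2) (by omega)) (M - (α.1 h).2.val)
            rw [one_pow] at h1 h2
            have h3 := hN.mul _ _ _ _ h1 h2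
            rw [one_mul] at h3
            exact hN.mono _ _ _ h3 (one_le_pow₀ hc0)
          · unfold blk
            rw [if_neg hT]
            have h1 := n_pow hN (hX h.val (by have := h.isLt; omega)) (α.1 h).1.val
            rw [one_pow] at h1
            obtain ⟨h2, h3⟩ := hlaw h.val h.isLt
            have h4 := hN.mul _ _ _ _ h1 (hN.mul _ _ _ _ (n_pow hN h2 (M - (α.1 h).2.val))
              (n_pow hN h3 (α.1 h).2.val))
            rw [one_mul, ← pow_add, Nat.sub_add_cancel (by omega), ← pow_mul] at h4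
            exact h4)
      have t4 : ∏ h : Fin (2 * n), (cst v 40 * Γ) ^ (4 ^ e (h.val / 2) * M) =
          (cst v 40 * Γ) ^ (2 * M * sq n e) := by
        rw [Finset.prod_pow_eq_pow_sum, ← Finset.sum_mul, sum_half n (fun j => 4 ^ e j)]
        congr 1
        unfold Pool.Agent.Helper42.SG.sq
        ring
      rw [t4] at t3
      have h := hN.mul _ _ _ _ (hN.mul _ _ _ _ t1 t3) t2
      rwa [mul_one] at h
    have hT0 : 0 ≤ s * (cst v 40 * Γ) ^ (2 * M * sq n e) :=
      mul_nonneg hs (pow_nonneg (by linarith) _)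
    have hsum := mb_sum hN (Finset.univ : Finset (Idx n M δ e)) _ _ hT0 (fun α _ => hterm α)
    have hP : N (P0T T W n M δ e c X Ψ) (cst v ((Finset.univ : Finset (Idx n M δ e)).card : ℝ) *
        (s * (cst v 40 * Γ) ^ (2 * M * sq n e))) := hsum
    refine hN.mono _ _ _ hP ?_
    show _ ≤ s * (cst v D * (cst v 40 * (bet (W 0) v * bet (W 1) v) ^ 2) ^ (2 * M)) ^ sq n e
    rw [← hΓ]
    have hcard : cst v ((Finset.univ : Finset (Idx n M δ e)).card : ℝ) ≤
        cst v ((D : ℝ) ^ sq n e) := by
      refine cst_mono v ?_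
      rw [Finset.card_univ]
      exact_mod_cast card_idx n M δ hn e
    calc cst v ((Finset.univ : Finset (Idx n M δ e)).card : ℝ) *
          (s * (cst v 40 * Γ) ^ (2 * M * sq n e))
        ≤ cst v ((D : ℝ) ^ sq n e) * (s * (cst v 40 * Γ) ^ (2 * M * sq n e)) :=
          mul_le_mul_of_nonneg_right hcard hT0
      _ = s * (cst v D ^ sq n e * ((cst v 40 * Γ) ^ (2 * M)) ^ sq n e) := by
          rw [cst_pow, pow_mul (cst v 40 * Γ)]; ring
      _ = s * (cst v D * (cst v 40 * Γ) ^ (2 * M)) ^ sq n e := by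
          rw [mul_pow (cst v (D : ℝ)) ((cst v 40 * Γ) ^ (2 * M))]

end Pool.Agent.Helper92.SG2
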